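import Pool.Agent.H73.CBE.Stmts

/-! # Row THM of the board `cbe`: the theorem -/

set_option autoImplicit false

open Set Filter Topology

namespace Pool.CBE

theorem THM_thm (h1 : CONStmt) (h2 : FDRStmt) (h3 : TRAStmt) (h4 : EXDStmt) (h5 : DOMStmt) :
    THMStmt := by
  intro n a hn ha0 ha1
  obtain ⟨η, C, hη, hC, hcon⟩ := h1 n hn
  have hκ : 1 ≤ C / η := by
    rw [le_div_iff₀ hη]
    linarith
  obtain ⟨d, hd, hda⟩ := h4 (C / η) a hκ ha0 ha1
  obtain ⟨T, w, hb, hder⟩ := hcon d hd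
  obtain ⟨hcd, hhom, _⟩ := h2 n d T w (by omega)
  obtain ⟨ht1, ht2⟩ := h3 n d (fm d T w) η C hd hη hcd hhom hb hder
  have hs : 1 ≤ √(d : ℝ) := by
    rw [Real.one_le_sqrt]
    have : 1 ≤ d := by omega
    exact_mod_cast this
  have H : Hyp (fm d T w) d η C (C / η * √(d : ℝ)) a :=
    { hn := hn
      hd := hd
      cd := hcd
      hom := hhom
      hη := hη
      hC := hC
      lo := fun z => (ht1 z).1
      up := fun z => (ht1 z).2
      hθ := by
        calc (1 : ℝ) = 1 * 1 := by ring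
          _ ≤ C / η * √(d : ℝ) := mul_le_mul hκ hs zero_le_one (by linarith)
      ex := by
        intro z v hz
        have e1 := ht2 z v hz
        have e2 : C * √(d : ℝ) / η = C / η * √(d : ℝ) := by ring
        rw [e2] at e1
        exact e1
      ha0 := ha0
      ha1 := ha1
      hθa := hda }
  obtain ⟨ρ, g1, g2, g3, g4, g5, g6, g7, g8, g9⟩ := h5 n (fm d T w) d η C _ a H
  exact ⟨d, T, w, ρ, hd, g1, g2, g3, g4, g5, g6, g7, g8, g9⟩

end Pool.CBE
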